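import Pool.Agent.K1H22.DF.Stm5

/-!
The weak set pair inequality and its application (pieces PAIR, WEAK5 of the project DF5, MP_1438b7_co).
-/

set_option autoImplicit false

namespace Pool.Agent.K1H46.DF

open Finset Pool.Agent.K1H22.DF

theorem t_PAIR : S_PAIR := by
  intro a b c
  induction a with
  | zero =>
    refine ⟨c, ?_⟩
    intro α ι _ _ X A B N hA hB hN hd hx
    rcases X.eq_empty_or_nonempty with h | ⟨x0, h0⟩
    · rw [h, card_empty]; exact Nat.zero_le _
    · refine (card_le_card ?_).trans (hN x0 h0)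
      intro y hy
      by_contra hcon
      apply hx x0 h0 y hy hcon
      have : A y = ∅ := card_eq_zero.1 (Nat.le_zero.1 (hA y hy))
      rw [this]
      exact disjoint_empty_left _
  | succ a ih =>
    obtain ⟨F, hF⟩ := ih
    refine ⟨c + b * F, ?_⟩
    intro α ι _ _ X A B N hA hB hN hd hx
    rcases X.eq_empty_or_nonempty with h | ⟨x0, h0⟩
    · rw [h, card_empty]; exact Nat.zero_le _
    · have hsub : X ⊆ N x0 ∪ (B x0).biUnion (fun e => X.filter (fun y => e ∈ A y)) := by
        intro y hy
        by_cases hyN : y ∈ N x0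
        · exact mem_union_left _ hyN
        · refine mem_union_right _ ?_
          obtain ⟨e, he1, he2⟩ := not_disjoint_iff.1 (hx x0 h0 y hy hyN)
          exact mem_biUnion.2 ⟨e, he2, mem_filter.2 ⟨hy, he1⟩⟩
      have hXe : ∀ e ∈ B x0, (X.filter (fun y => e ∈ A y)).card ≤ F := by
        intro e _
        refine hF α ι (X.filter (fun y => e ∈ A y)) (fun y => (A y).erase e) B N ?_ ?_ ?_ ?_ ?_
        · intro y hy
          obtain ⟨hy1, hy2⟩ := mem_filter.1 hy
          have := hA y hy1
          have h2 := card_erase_of_mem hy2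
          change ((A y).erase e).card ≤ a
          omega
        · intro y hy
          exact hB y (mem_filter.1 hy).1
        · intro y hy
          exact hN y (mem_filter.1 hy).1
        · intro y hy
          exact (hd y (mem_filter.1 hy).1).mono_left (erase_subset _ _)
        · intro x hx' y hy hyN
          obtain ⟨hx1, hx2⟩ := mem_filter.1 hx'
          obtain ⟨hy1, hy2⟩ := mem_filter.1 hy
          obtain ⟨z, hz1, hz2⟩ := not_disjoint_iff.1 (hx x hx1 y hy1 hyN)
          refine not_disjoint_iff.2 ⟨z, mem_erase.2 ⟨?_, hz1⟩, hz2⟩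
          rintro rfl
          exact (disjoint_left.1 (hd x hx1) hx2) hz2
      calc X.card ≤ (N x0 ∪ (B x0).biUnion (fun e => X.filter (fun y => e ∈ A y))).card :=
            card_le_card hsub
        _ ≤ (N x0).card + ((B x0).biUnion (fun e => X.filter (fun y => e ∈ A y))).card :=
            card_union_le _ _
        _ ≤ c + (B x0).card * F := Nat.add_le_add (hN x0 h0) (card_biUnion_le_card_mul _ _ _ hXe)
        _ ≤ c + b * F := Nat.add_le_add_left (Nat.mul_le_mul_right _ (hB x0 h0)) _

section

variable {V : Type} [Fintype V] [DecidableEq V] (G : SimpleGraph V) [DecidableRel G.Adj]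

theorem hn_sub_hub (D : ℕ) (v : V) : hn G D v ⊆ hub G D := by
  intro x hx
  unfold hn at hx
  exact (mem_filter.1 hx).2

theorem S2_sub_hub (D : ℕ) (v : V) : S2 G D v ⊆ hub G D := by
  intro x hx
  unfold S2 at hx
  rcases mem_union.1 hx with h | h
  · exact hn_sub_hub G D v h
  · obtain ⟨c, _, hc⟩ := mem_biUnion.1 h
    exact hn_sub_hub G D c hc

theorem hn_sub_S2 (D : ℕ) (v : V) : hn G D v ⊆ S2 G D v := by
  unfold S2
  exact subset_union_left

theorem card_hn_le (D : ℕ) (v : V) (hv : v ∉ hub G D) : (hn G D v).card ≤ D := by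
  have h1 : (hn G D v).card ≤ G.degree v := by
    rw [← G.card_neighborFinset_eq_degree]
    unfold hn
    exact card_le_card (filter_subset _ _)
  have h2 : G.degree v < D := by
    by_contra hcon
    apply hv
    unfold hub
    exact mem_filter.2 ⟨mem_univ _, not_lt.1 hcon⟩
  omega

/-- the application of the set pair inequality -/
theorem appl (h1 : S_BALL) (D k F : ℕ)
    (hF : ∀ (α ι : Type) [DecidableEq α] [DecidableEq ι]
      (X : Finset ι) (A B : ι → Finset α) (N : ι → Finset ι),
      (∀ x ∈ X, (A x).card ≤ k) → (∀ x ∈ X, (B x).card ≤ (1 + D) ^ 2 * D) →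
      (∀ x ∈ X, (N x).card ≤ (1 + D) ^ 5) →
      (∀ x ∈ X, Disjoint (A x) (B x)) →
      (∀ x ∈ X, ∀ y ∈ X, y ∉ N x → ¬ Disjoint (A y) (B x)) → X.card ≤ F)
    (X : Finset V) (hX : ∀ x ∈ X, x ∉ hub G D) (hk : ∀ x ∈ X, (S2 G D x).card ≤ k)
    (hR : ∀ x ∈ X, ∀ y ∈ X, y ∉ ball G D x 5 →
      ∃ z ∈ (ball G D x 2).biUnion (hn G D), z ∉ S2 G D x ∧ z ∈ S2 G D y) : X.card ≤ F := by
  refine hF V V X (S2 G D) (fun x => (ball G D x 2).biUnion (hn G D) \ S2 G D x)
    (fun x => ball G D x 5) hk ?_ ?_ ?_ ?_
  · intro x hx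
    obtain ⟨hb1, hb2⟩ := h1 V G D x 2 (hX x hx)
    calc ((ball G D x 2).biUnion (hn G D) \ S2 G D x).card
        ≤ ((ball G D x 2).biUnion (hn G D)).card := card_le_card sdiff_subset
      _ ≤ (ball G D x 2).card * D :=
          card_biUnion_le_card_mul _ _ _ (fun y hy => card_hn_le G D y (hb1 y hy))
      _ ≤ (1 + D) ^ 2 * D := Nat.mul_le_mul_right _ hb2
  · intro x hx
    exact (h1 V G D x 5 (hX x hx)).2
  · intro x _
    exact disjoint_sdiff
  · intro x hx y hy hxy
    obtain ⟨z, hz1, hz2, hz3⟩ := hR x hx y hy hxy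
    exact not_disjoint_iff.2 ⟨z, hz3, mem_sdiff.2 ⟨hz1, hz2⟩⟩

end

theorem t_WEAK5 (h1 : S_BALL) (h2 : S_ROUTE5) : S_WEAK5 := by
  intro k D hk
  obtain ⟨F, hF⟩ := t_PAIR k ((1 + D) ^ 2 * D) ((1 + D) ^ 5)
  refine ⟨(k + 1) * F, ?_⟩
  intro V _ _ G _ hV hA
  constructor
  · have h3 : (univ.filter (fun v => v ∉ hub G D ∧ hn G D v = ∅ ∧ (S2 G D v).card < k)).card ≤ F := by
      refine appl G h1 D k F hF _ ?_ ?_ ?_
      · intro x hx
        exact (mem_filter.1 hx).2.1
      · intro x hx
        exact (mem_filter.1 hx).2.2.2.le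
      · intro x hx y hy hxy
        obtain ⟨hx1, hx2, hx3⟩ := (mem_filter.1 hx).2
        obtain ⟨hy1, hy2, hy3⟩ := (mem_filter.1 hy).2
        obtain ⟨z, hz1, hz2, hz3⟩ := h2 V G D k hV hA (S2 G D x) x y (S2_sub_hub G D x) (by omega)
          hx1 hy1 hxy (Subset.refl _) (by rw [hy2]; exact empty_subset _)
        exact ⟨z, hz1, hz2, hz3⟩
    calc _ ≤ F := h3
      _ ≤ (k + 1) * F := Nat.le_mul_of_pos_left _ (Nat.succ_pos k)
  · intro h
    have hsub : (univ.filter (fun v => v ∉ hub G D ∧ h ∈ hn G D v ∧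
        (S2 G D v).card + (hn G D v).card ≤ k)) ⊆
        (range (k + 1)).biUnion (fun j => univ.filter (fun v => v ∉ hub G D ∧ h ∈ hn G D v ∧
          (S2 G D v).card + (hn G D v).card ≤ k ∧ (hn G D v).card = j)) := by
      intro v hv
      obtain ⟨hv1, hv2, hv3⟩ := (mem_filter.1 hv).2
      exact mem_biUnion.2 ⟨(hn G D v).card, mem_range.2 (by omega),
        mem_filter.2 ⟨mem_univ _, hv1, hv2, hv3, rfl⟩⟩
    have h4 : ∀ j ∈ range (k + 1), (univ.filter (fun v => v ∉ hub G D ∧ h ∈ hn G D v ∧
          (S2 G D v).card + (hn G D v).card ≤ k ∧ (hn G D v).card = j)).card ≤ F := by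
      intro j _
      refine appl G h1 D k F hF _ ?_ ?_ ?_
      · intro x hx
        exact (mem_filter.1 hx).2.1
      · intro x hx
        have := (mem_filter.1 hx).2.2.2.1
        omega
      · intro x hx y hy hxy
        obtain ⟨hx1, hx2, hx3, hx4⟩ := (mem_filter.1 hx).2
        obtain ⟨hy1, hy2, hy3, hy4⟩ := (mem_filter.1 hy).2
        have hc : (S2 G D x ∪ hn G D y).card ≤ k - 1 := by
          have e1 : S2 G D x ∪ hn G D y = S2 G D x ∪ (hn G D y).erase h := by
            ext z
            simp only [mem_union, mem_erase]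
            constructor
            · rintro (hz | hz)
              · exact Or.inl hz
              · by_cases hzh : z = h
                · left
                  rw [hzh]
                  exact hn_sub_S2 G D x hx2
                · exact Or.inr ⟨hzh, hz⟩
            · rintro (hz | hz)
              · exact Or.inl hz
              · exact Or.inr hz.2
          rw [e1]
          have e2 := card_union_le (S2 G D x) ((hn G D y).erase h)
          have e3 := card_erase_of_mem hy2
          have e4 : 0 < (hn G D y).card := card_pos.2 ⟨h, hy2⟩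
          omega
        obtain ⟨z, hz1, hz2, hz3⟩ := h2 V G D k hV hA (S2 G D x ∪ hn G D y) x y
          (union_subset (S2_sub_hub G D x) (hn_sub_hub G D y)) hc
          hx1 hy1 hxy subset_union_left subset_union_right
        exact ⟨z, hz1, fun hh => hz2 (mem_union_left _ hh), hz3⟩
    calc _ ≤ _ := card_le_card hsub
      _ ≤ (range (k + 1)).card * F := card_biUnion_le_card_mul _ _ _ h4
      _ = (k + 1) * F := by rw [card_range]

end Pool.Agent.K1H46.DF
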